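import Mathlib
import Pool.Agent.IDQ.Depth

open Pool.Agent.Helper92.IncDepth Pool.Agent.IDQ

/-- Over every alphabet with at least six letters the inclusion depth of a pattern `p` is
exactly `2|p| - #var(p) - 1`. -/
theorem Pool.Agent.Results.MP_49a8fd_lc.DepthLargeAlphabets.result :
    ∀ (α : Type) [Fintype α], 6 ≤ Fintype.card α → ∀ p : Pattern α, p ≠ [] →
      numVar p + 1 ≤ 2 * p.length ∧
      IsGreatest (chainLengths p) (2 * p.length - numVar p - 1) := by
  intro α _ hcard p hp
  have h1 := numVar_le_length p
  have h2 := List.length_pos_of_ne_nil hp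
  refine ⟨by omega, ?_, ?_⟩
  · exact chain_lower (two_letters (by omega)) _ p hp (by omega)
  · intro n hn
    have h3 := chain_upper' (by omega) (grows_six hcard) hn
    omega
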