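import Mathlib
import Pool.Agent.IDQ.Small

open Pool.Agent.Helper92.IncDepth Pool.Agent.IDQ

/-- Linear bounds for the inclusion depth `D` over the alphabets with two to five letters:
`2|p| - #var(p) - 1 ≤ D` and `5 D ≤ 22|p| - 5 #var(p) - 17`, with the upper bounds
`D ≤ 3|p| - #var(p) - 2` if there are at least three letters, `2 D ≤ 5|p| - 2 #var(p) - 3` if there are
at least four letters and `5 D ≤ 11|p| - 5 #var(p) - 6` if there are five letters. -/
theorem Pool.Agent.Results.MP_49a8fd_lc.DepthLinearBound.result :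
    ∀ (α : Type) [Fintype α], 2 ≤ Fintype.card α → Fintype.card α ≤ 5 →
      ∀ p : Pattern α, p ≠ [] → ∃ D : ℕ, IsGreatest (chainLengths p) D ∧
        2 * p.length ≤ D + numVar p + 1 ∧
        5 * D + 5 * numVar p + 17 ≤ 22 * p.length ∧
        (3 ≤ Fintype.card α → D + numVar p + 2 ≤ 3 * p.length) ∧
        (4 ≤ Fintype.card α → 2 * D + 2 * numVar p + 3 ≤ 5 * p.length) ∧
        (5 ≤ Fintype.card α → 5 * D + 5 * numVar p + 6 ≤ 11 * p.length) := by
  intro α _ hcard hcard5 p hp
  have h1 := numVar_le_length p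
  have h2 := List.length_pos_of_ne_nil hp
  have hlow := chain_lower (two_letters hcard) (2 * p.length - numVar p - 1) p hp (by omega)
  have h5 : ∀ n ∈ chainLengths p, 5 ≤ Fintype.card α → 5 * n + 5 * numVar p + 6 ≤ 11 * p.length := by
    intro n hn h
    have := chain_upper' hcard (grows_five (by omega)) hn
    omega
  have h4 : ∀ n ∈ chainLengths p, 4 ≤ Fintype.card α → 2 * n + 2 * numVar p + 3 ≤ 5 * p.length := by
    intro n hn h
    rcases Nat.lt_or_ge (Fintype.card α) 5 with h6 | h6
    · have := chain_upper' hcard (grows_four (by omega)) hn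
      omega
    · have := h5 n hn h6
      omega
  have h3 : ∀ n ∈ chainLengths p, 3 ≤ Fintype.card α → n + numVar p + 2 ≤ 3 * p.length := by
    intro n hn h
    have := chain_upper' hcard (grows_three h) hn
    omega
  have hup : ∀ n ∈ chainLengths p, 5 * n + 5 * numVar p + 17 ≤ 22 * p.length := by
    intro n hn
    rcases Nat.lt_or_ge (Fintype.card α) 3 with h6 | h6
    · have := chain_upper' hcard (grows_two (by omega)) hn
      omega
    · have := h3 n hn h6
      omega
  have hbdd : BddAbove (chainLengths p) := by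
    refine ⟨22 * p.length, ?_⟩
    intro n hn
    have h6 := hup n hn
    omega
  have hgr : IsGreatest (chainLengths p) (sSup (chainLengths p)) :=
    ⟨Nat.sSup_mem ⟨_, hlow⟩ hbdd, fun n hn => le_csSup hbdd hn⟩
  refine ⟨_, hgr, ?_, hup _ hgr.1, h3 _ hgr.1, h4 _ hgr.1, h5 _ hgr.1⟩
  have h6 := hgr.2 hlow
  omega
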